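import Mathlib

namespace Pool.Agent.Results.MP_0c5bac_gt.Baire
open Set Topology

variable {X Y : Type*} [TopologicalSpace X] [TopologicalSpace Y] (π : X → Y)

def Good (W : Set (Set X)) : Prop :=
  (∀ A ∈ W, IsOpen A) ∧ W.Pairwise fun A B => Disjoint (π '' A) (π '' B)

lemma step [RegularSpace X] (hc : Continuous π) (W : Set (Set X)) (hW : Good π W) (U : Set X)
    (hU : IsOpen U) (hd : Dense U) : ∃ W', Good π W' ∧ (∀ A ∈ W', ∃ B ∈ W, closure A ⊆ B ∩ U) ∧
    π '' ⋃₀ W ⊆ closure (π '' ⋃₀ W') := by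
  obtain ⟨M, hM⟩ := zorn_subset {W' | Good π W' ∧ ∀ A ∈ W', ∃ B ∈ W, closure A ⊆ B ∩ U}
    fun c hc' hch => ⟨⋃₀ c, ⟨⟨fun A ⟨w, hw, hA⟩ => (hc' hw).1.1 A hA,
      (pairwise_sUnion hch.directedOn).2 fun w hw => (hc' hw).1.2⟩,
      fun A ⟨w, hw, hA⟩ => (hc' hw).2 A hA⟩, fun _ => subset_sUnion_of_mem⟩
  refine ⟨M, hM.prop.1, hM.prop.2, ?_⟩
  rintro _ ⟨x, ⟨B, hB, hx⟩, rfl⟩
  by_contra hn
  have ho : IsOpen (B ∩ π ⁻¹' (closure (π '' ⋃₀ M))ᶜ) :=
    (hW.1 B hB).inter (isClosed_closure.isOpen_compl.preimage hc)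
  obtain ⟨z, hz, hzU⟩ := hd.inter_open_nonempty _ ho ⟨x, hx, hn⟩
  obtain ⟨C, hC, hCc, hCs⟩ := exists_mem_nhds_isClosed_subset ((ho.inter hU).mem_nhds ⟨hz, hzU⟩)
  have hs : closure (interior C) ⊆ C := closure_minimal interior_subset hCc
  have hdis : ∀ A ∈ M, Disjoint (π '' interior C) (π '' A) := fun A hA => by
    rw [disjoint_left]
    rintro _ ⟨y, hy, rfl⟩ h
    exact (hCs (interior_subset hy)).1.2 (subset_closure (image_mono (subset_sUnion_of_mem hA) h))
  have : interior C ∈ M := hM.le_of_ge (y := insert (interior C) M) ⟨⟨by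
      rintro A (rfl | hA)
      exacts [isOpen_interior, hM.prop.1.1 A hA],
    hM.prop.1.2.insert fun A hA _ => ⟨hdis A hA, (hdis A hA).symm⟩⟩, by
      rintro A (rfl | hA)
      exacts [⟨B, hB, fun y hy => ⟨(hCs (hs hy)).1.1, (hCs (hs hy)).2⟩⟩, hM.prop.2 A hA]⟩
    (subset_insert _ _) (mem_insert _ _)
  exact disjoint_left.1 (hdis _ this) (mem_image_of_mem π (mem_interior_iff_mem_nhds.2 hC))
    (mem_image_of_mem π (mem_interior_iff_mem_nhds.2 hC))

lemma main [RegularSpace X] [BaireSpace Y] (hc : Continuous π) (ho : IsOpenMap π)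
    (hk : ∀ y, IsCompact (π ⁻¹' {y})) : BaireSpace X := by
  refine ⟨fun U hU hd => dense_iff_inter_open.2 fun V hV hne => ?_⟩
  choose! F h1 h2 h3 using fun (n : ℕ) W hW => step π hc W hW (U n) (hU n) (hd n)
  let W : ℕ → Set (Set X) := fun n => Nat.rec {V} F n
  have g : ∀ n, Good π (W n) := fun n => by
    induction n with
    | zero => exact ⟨by simpa [W], by simp [W]⟩
    | succ n ih => exact h1 n _ ih
  have d : ∀ n, π '' V ⊆ closure (π '' ⋃₀ W n) := fun n => by
    induction n with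
    | zero => simpa [W] using (subset_closure (s := π '' V))
    | succ n ih => exact ih.trans (closure_minimal (h3 n _ (g n)) isClosed_closure)
  have hD := dense_iInter_of_isOpen_nat (f := fun n => π '' ⋃₀ W n ∪ (closure (π '' V))ᶜ)
    (fun n => (ho _ (isOpen_sUnion (g n).1)).union isClosed_closure.isOpen_compl) fun n y => by
      rw [closure_union]
      by_cases hy : y ∈ closure (π '' V)
      · exact Or.inl (closure_minimal (d n) isClosed_closure hy)
      · exact Or.inr (subset_closure hy)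
  obtain ⟨y, hy, hy'⟩ := hD.inter_open_nonempty _ (ho V hV) (hne.image π)
  have : ∀ n, ∃ A ∈ W n, y ∈ π '' A := fun n => by
    obtain ⟨x, ⟨A, hA, hx⟩, e⟩ := (mem_iInter.1 hy' n).resolve_right fun h => h (subset_closure hy)
    exact ⟨A, hA, x, hx, e⟩
  choose A hA hyA using this
  have nest : ∀ n, closure (A (n + 1)) ⊆ A n ∩ U n := fun n => by
    obtain ⟨B, hB, h⟩ := h2 n _ (g n) _ (hA (n + 1))
    have : B = A n := by
      by_contra hne
      exact disjoint_left.1 ((g n).2 hB (hA n) hne)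
        (image_mono (fun z hz => (h (subset_closure hz)).1) (hyA (n + 1))) (hyA n)
    exact this ▸ h
  have anti : Antitone fun n => closure (A n) :=
    antitone_nat_of_succ_le fun n z hz => subset_closure (nest n hz).1
  by_contra hcon
  obtain ⟨n, hn⟩ := (hk y).elim_directed_family_closed (fun n => closure (A n))
    (fun _ => isClosed_closure) (by
      rw [eq_empty_iff_forall_notMem]
      rintro z ⟨_, hz⟩
      rw [mem_iInter] at hz
      have h0 : A 0 = V := hA 0
      exact hcon ⟨z, h0 ▸ (nest 0 (hz 1)).1, mem_iInter.2 fun n => (nest n (hz _)).2⟩)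
    anti.directed_ge
  obtain ⟨z, hz, e⟩ := hyA n
  exact eq_empty_iff_forall_notMem.1 hn z ⟨e, subset_closure hz⟩

theorem result (G : Type*) [Group G] [TopologicalSpace G] [IsTopologicalGroup G] (K : Subgroup G)
    [K.Normal] (hK : IsCompact (K : Set G)) [BaireSpace (G ⧸ K)] : BaireSpace G := by
  refine main (QuotientGroup.mk : G → G ⧸ K) QuotientGroup.continuous_mk
    QuotientGroup.isOpenMap_coe fun y => ?_
  obtain ⟨x, rfl⟩ := QuotientGroup.mk_surjective y
  convert hK.image (continuous_const_mul x) using 1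
  ext z
  simp only [mem_preimage, mem_singleton_iff, eq_comm (a := (z : G ⧸ K)), QuotientGroup.eq]
  exact ⟨fun h => ⟨_, h, by simp⟩, by rintro ⟨k, hk, rfl⟩; simpa using hk⟩

end Pool.Agent.Results.MP_0c5bac_gt.Baire
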